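import Pool.Agent.W497.Ram.Roots

/-!
The Euler factor of a Rankin-Selberg L-function `L(s, π × π~)` and the power sums of the Satake parameters.
-/

set_option autoImplicit false

namespace W497.Ram

open Finset
open scoped ComplexConjugate

variable {n : ℕ}

/-- `∏_{i,j} (1 - α_i conj(α_j) x)⁻¹` -/
noncomputable def rsFactor (a : Fin n → ℂ) (x : ℂ) : ℂ := ∏ i, ∏ j, (1 - a i * conj (a j) * x)⁻¹

theorem sum_pow_eq (a : Fin n → ℂ) (x : ℝ) (k : ℕ) :
    ∑ i, ∑ j, (a i * conj (a j) * (x : ℂ)) ^ k = ((‖ps a k‖ ^ 2 * x ^ k : ℝ) : ℂ) := by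
  have h1 : ∑ i, ∑ j, (a i * conj (a j) * (x : ℂ)) ^ k = ps a k * conj (ps a k) * (x : ℂ) ^ k := by
    unfold ps
    rw [map_sum, sum_mul_sum, sum_mul]
    refine sum_congr rfl fun i _ => ?_
    rw [sum_mul]
    refine sum_congr rfl fun j _ => ?_
    rw [mul_pow, mul_pow, map_pow]
  rw [h1, Complex.mul_conj, Complex.normSq_eq_norm_sq]
  push_cast
  ring

theorem norm_z_lt {a : Fin n → ℂ} {x : ℝ} (hx : 0 < x) (ha : ∀ i, ‖a i‖ ^ 2 * x < 1) (i j : Fin n) :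
    ‖a i * conj (a j) * (x : ℂ)‖ < 1 := by
  rw [norm_mul, norm_mul, RCLike.norm_conj, Complex.norm_real, Real.norm_of_nonneg hx.le]
  have h1 := ha i
  have h2 := ha j
  have h3 : (‖a i‖ * ‖a j‖ * x) ^ 2 < 1 := by
    calc (‖a i‖ * ‖a j‖ * x) ^ 2 = (‖a i‖ ^ 2 * x) * (‖a j‖ ^ 2 * x) := by ring
      _ < 1 := by
        have h4 : 0 ≤ ‖a i‖ ^ 2 * x := by positivity
        have h5 : 0 ≤ ‖a j‖ ^ 2 * x := by positivity
        nlinarith
  have h6 : 0 ≤ ‖a i‖ * ‖a j‖ * x := by positivity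
  nlinarith

theorem rsFactor_eq_exp {a : Fin n → ℂ} {x : ℝ} (hx : 0 < x) (ha : ∀ i, ‖a i‖ ^ 2 * x < 1) :
    ∃ r : ℝ, HasSum (fun k : ℕ => ‖ps a k‖ ^ 2 * x ^ k / k) r ∧ rsFactor a x = ((Real.exp r : ℝ) : ℂ) := by
  set z : Fin n → Fin n → ℂ := fun i j => a i * conj (a j) * (x : ℂ) with hz
  have hz1 : ∀ i j, ‖z i j‖ < 1 := fun i j => norm_z_lt hx ha i j
  have h1 : HasSum (fun k : ℕ => ∑ i, ∑ j, (z i j) ^ k / k) (∑ i, ∑ j, -Complex.log (1 - z i j)) :=
    hasSum_sum fun i _ => hasSum_sum fun j _ => Complex.hasSum_taylorSeries_neg_log (hz1 i j)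
  have h2 : (fun k : ℕ => ∑ i, ∑ j, (z i j) ^ k / (k : ℂ)) =
      fun k : ℕ => ((‖ps a k‖ ^ 2 * x ^ k / k : ℝ) : ℂ) := by
    ext k
    simp_rw [← sum_div]
    rw [hz]
    simp only
    rw [sum_pow_eq]
    push_cast
    ring
  rw [h2] at h1
  have h3 := Complex.hasSum_re h1
  simp only [Complex.ofReal_re] at h3
  refine ⟨_, h3, ?_⟩
  have h4 : (∑ i, ∑ j, -Complex.log (1 - z i j)) = (((∑ i, ∑ j, -Complex.log (1 - z i j)).re : ℝ) : ℂ) := by
    have h5 := Complex.hasSum_im h1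
    simp only [Complex.ofReal_im] at h5
    have h6 := h5.unique hasSum_zero
    exact Complex.ext (by simp) (by simpa using h6)
  rw [Complex.ofReal_exp, ← h4, Complex.exp_sum, rsFactor]
  refine prod_congr rfl fun i _ => ?_
  rw [Complex.exp_sum]
  refine prod_congr rfl fun j _ => ?_
  rw [Complex.exp_neg, Complex.exp_log]
  intro h0
  have h7 : z i j = 1 := by linear_combination -h0
  have h8 := hz1 i j
  rw [h7, norm_one] at h8
  exact lt_irrefl _ h8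

/-- The power sums are controlled by the Euler factor. -/
theorem ps_le {a : Fin n → ℂ} {x : ℝ} (hx : 0 < x) (ha : ∀ i, ‖a i‖ ^ 2 * x < 1) {k : ℕ} (hk : 1 ≤ k) :
    ‖ps a k‖ ^ 2 * x ^ k ≤ k * ‖rsFactor a x - 1‖ := by
  obtain ⟨r, hr, he⟩ := rsFactor_eq_exp hx ha
  have h1 : ‖ps a k‖ ^ 2 * x ^ k / k ≤ r := le_hasSum hr k fun j _ => by positivity
  have h2 : r + 1 ≤ Real.exp r := Real.add_one_le_exp r
  have h3 : ‖rsFactor a x - 1‖ = Real.exp r - 1 := by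
    rw [he, ← Complex.ofReal_one, ← Complex.ofReal_sub, Complex.norm_real, Real.norm_of_nonneg]
    have : 0 ≤ r := le_trans (by positivity) h1
    linarith
  have hk' : (0 : ℝ) < k := by exact_mod_cast hk
  rw [div_le_iff₀ hk'] at h1
  rw [h3]
  nlinarith

/-- `θ = max_i |log_q |α_i||` -/
noncomputable def theta (q : ℝ) (a : Fin n → ℂ) : ℝ := ⨆ i, |Real.logb q ‖a i‖|

theorem theta_nonneg (q : ℝ) (a : Fin n → ℂ) : 0 ≤ theta q a :=
  Real.iSup_nonneg fun _ => abs_nonneg _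

theorem rpow_theta_le {q : ℝ} (hq : 1 < q) {a : Fin n → ℂ} (ha : ∀ i, a i ≠ 0) (h : Unit' a) {B : ℝ}
    (hB : 1 ≤ B) (hb : ∀ i, ‖a i‖ ≤ B) : q ^ theta q a ≤ B := by
  have hB0 : 0 < B := by linarith
  have hq0 : 0 < q := by linarith
  have h1 : theta q a ≤ Real.logb q B := by
    unfold theta
    rcases isEmpty_or_nonempty (Fin n) with hn | hn
    · rw [Real.iSup_of_isEmpty]
      exact Real.logb_nonneg hq hB
    refine ciSup_le fun i => ?_
    rw [abs_le]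
    have hi : 0 < ‖a i‖ := norm_pos_iff.2 (ha i)
    constructor
    · obtain ⟨j, hj⟩ := h.inv_mem i
      have h2 := hb j
      rw [hj] at h2
      rw [neg_le, ← Real.logb_inv]
      exact Real.logb_le_logb_of_le hq (by positivity) h2
    · exact Real.logb_le_logb_of_le hq hi (hb i)
  calc q ^ theta q a ≤ q ^ Real.logb q B := Real.rpow_le_rpow_of_exponent_le hq.le h1
    _ = B := Real.rpow_logb hq0 (by linarith) hB0

end W497.Ram
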