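import Pool.Agent.W497.Ram.Local

/-!
Summability of powers of the exponents of the Satake parameters.
-/

set_option autoImplicit false

namespace W497.Ram

open Finset
open scoped ComplexConjugate

variable {n : ℕ}

theorem norm_ps_le {q : ℝ} {a : Fin n → ℂ} (hb : ∀ i, ‖a i‖ ^ 2 ≤ q) (j : ℕ) :
    ‖ps a j‖ ^ 2 ≤ (n : ℝ) ^ 2 * q ^ j := by
  rcases Nat.eq_zero_or_pos n with h0 | h0
  · subst h0
    have : ps a j = 0 := by simp [ps]
    rw [this]; simp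
  have hq0 : 0 ≤ q := le_trans (by positivity) (hb ⟨0, h0⟩)
  have h1 : ‖ps a j‖ ≤ n * Real.sqrt q ^ j := by
    unfold ps
    calc ‖∑ i, a i ^ j‖ ≤ ∑ i : Fin n, Real.sqrt q ^ j := by
          refine norm_sum_le_of_le _ fun i _ => ?_
          rw [norm_pow]
          exact pow_le_pow_left₀ (norm_nonneg _) (Real.le_sqrt_of_sq_le (hb i)) _
      _ = n * Real.sqrt q ^ j := by simp
  calc ‖ps a j‖ ^ 2 ≤ (n * Real.sqrt q ^ j) ^ 2 := pow_le_pow_left₀ (norm_nonneg _) h1 2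
    _ = (n : ℝ) ^ 2 * (Real.sqrt q ^ 2) ^ j := by ring
    _ = (n : ℝ) ^ 2 * q ^ j := by rw [Real.sq_sqrt hq0]

/-- `y ^ t ≤ M ^ (t-1) y` for `0 ≤ y ≤ M`, `t ≥ 1`. -/
theorem rpow_le_of_le {y M t : ℝ} (hy : 0 ≤ y) (hM : y ≤ M) (ht : 1 ≤ t) :
    y ^ t ≤ M ^ (t - 1) * y := by
  rcases hy.eq_or_lt with h | h
  · rw [← h, Real.zero_rpow (by linarith), mul_zero]
  · calc y ^ t = y ^ (t - 1) * y := by
          rw [← Real.rpow_add_one h.ne', sub_add_cancel]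
      _ ≤ M ^ (t - 1) * y :=
          mul_le_mul_of_nonneg_right (Real.rpow_le_rpow hy hM (by linarith)) hy

/-- The local inequality. -/
theorem local_ineq {q σ : ℝ} (hq : 1 < q) (hσ : 1 < σ) {a : Fin n → ℂ} (ha : ∀ i, a i ≠ 0)
    (h : Unit' a) (hb : ∀ i, ‖a i‖ ^ 2 < q) (hm : 1 ≤ n / 2) :
    q ^ (((n / 2 : ℕ) : ℝ) * (2 * theta q a - σ)) ≤
      4 ^ (n / 2) * (q ^ (-(((n / 2 : ℕ) : ℝ) * σ)) +
        (n : ℝ) ^ (2 * (n / 2)) * ∑ j ∈ Icc 1 (n / 2), (j : ℝ) * ‖rsFactor a ((q ^ (-σ) : ℝ) : ℂ) - 1‖) := by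
  set m := n / 2 with hmdef
  have hq0 : 0 < q := by linarith
  have hm0 : (0 : ℝ) < m := by exact_mod_cast hm
  have hn1 : (1 : ℝ) ≤ n := by
    have : 1 ≤ n := by omega
    exact_mod_cast this
  set T : ℝ := 1 + ∑ j ∈ Icc 1 m, ‖ps a j‖ ^ (2 * (m : ℝ) / j) with hT
  have hT1 : 1 ≤ T := by
    rw [hT]
    have : 0 ≤ ∑ j ∈ Icc 1 m, ‖ps a j‖ ^ (2 * (m : ℝ) / j) := sum_nonneg fun j _ => by positivity
    linarith
  have hT0 : 0 < T := by linarith
  set R : ℝ := T ^ (1 / (2 * (m : ℝ))) with hR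
  have hR1 : 1 ≤ R := Real.one_le_rpow hT1 (by positivity)
  have hR2 : R ^ (2 * m) = T := by
    rw [hR, ← Real.rpow_natCast, ← Real.rpow_mul hT0.le]
    push_cast
    rw [one_div_mul_cancel (by positivity), Real.rpow_one]
  have hps : ∀ j, 1 ≤ j → j ≤ m → ‖ps a j‖ ≤ R ^ j := by
    intro j hj1 hj2
    have hj0 : (0 : ℝ) < j := by exact_mod_cast hj1
    have h1 : ‖ps a j‖ ^ (2 * (m : ℝ) / j) ≤ T := by
      rw [hT]
      have := single_le_sum (f := fun j : ℕ => ‖ps a j‖ ^ (2 * (m : ℝ) / j))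
        (fun i _ => by positivity) (mem_Icc.2 ⟨hj1, hj2⟩)
      linarith
    have h2 : (‖ps a j‖ ^ (2 * (m : ℝ) / j)) ^ ((j : ℝ) / (2 * m)) ≤ T ^ ((j : ℝ) / (2 * m)) :=
      Real.rpow_le_rpow (by positivity) h1 (by positivity)
    rw [← Real.rpow_mul (norm_nonneg _)] at h2
    have h3 : 2 * (m : ℝ) / j * (j / (2 * m)) = 1 := by field_simp
    rw [h3, Real.rpow_one] at h2
    refine h2.trans (le_of_eq ?_)
    rw [hR, ← Real.rpow_natCast, ← Real.rpow_mul hT0.le]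
    congr 1
    field_simp
  have hθ : q ^ theta q a ≤ 2 * R :=
    rpow_theta_le hq ha h (by linarith) fun i => norm_le_of_ps ha h hR1 hps i
  have h4 : q ^ ((m : ℝ) * (2 * theta q a - σ)) = (q ^ theta q a) ^ (2 * m) * q ^ (-((m : ℝ) * σ)) := by
    rw [← Real.rpow_natCast, ← Real.rpow_mul hq0.le, ← Real.rpow_add hq0]
    congr 1
    push_cast
    ring
  have h5 : (q ^ theta q a) ^ (2 * m) ≤ 4 ^ m * T := by
    calc (q ^ theta q a) ^ (2 * m) ≤ (2 * R) ^ (2 * m) := pow_le_pow_left₀ (by positivity) hθ _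
      _ = 4 ^ m * T := by rw [mul_pow, hR2, pow_mul]; norm_num
  have hx0 : 0 < q ^ (-σ) := Real.rpow_pos_of_pos hq0 _
  have hxa : ∀ i, ‖a i‖ ^ 2 * q ^ (-σ) < 1 := by
    intro i
    calc ‖a i‖ ^ 2 * q ^ (-σ) < q * q ^ (-σ) := mul_lt_mul_of_pos_right (hb i) hx0
      _ = q ^ (1 - σ) := by
          rw [sub_eq_add_neg, Real.rpow_add hq0, Real.rpow_one]
      _ ≤ 1 := Real.rpow_le_one_of_one_le_of_nonpos hq.le (by linarith)
  have h6 : ∀ j ∈ Icc 1 m, ‖ps a j‖ ^ (2 * (m : ℝ) / j) * q ^ (-((m : ℝ) * σ)) ≤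
      (n : ℝ) ^ (2 * m) * ((j : ℝ) * ‖rsFactor a ((q ^ (-σ) : ℝ) : ℂ) - 1‖) := by
    intro j hj
    obtain ⟨hj1, hj2⟩ := mem_Icc.1 hj
    have hj0 : (0 : ℝ) < j := by exact_mod_cast hj1
    set y : ℝ := ‖ps a j‖ ^ 2 * (q ^ (-σ)) ^ j with hy
    have hy0 : 0 ≤ y := by positivity
    have hyn : y ≤ (n : ℝ) ^ 2 := by
      calc y ≤ ((n : ℝ) ^ 2 * q ^ j) * (q ^ (-σ)) ^ j :=
            mul_le_mul_of_nonneg_right (norm_ps_le (fun i => (hb i).le) j) (by positivity)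
        _ = (n : ℝ) ^ 2 * (q * q ^ (-σ)) ^ j := by rw [mul_pow]; ring
        _ ≤ (n : ℝ) ^ 2 * 1 := by
            refine mul_le_mul_of_nonneg_left (pow_le_one₀ (by positivity) ?_) (by positivity)
            calc q * q ^ (-σ) = q ^ (1 - σ) := by
                  rw [sub_eq_add_neg, Real.rpow_add hq0, Real.rpow_one]
              _ ≤ 1 := Real.rpow_le_one_of_one_le_of_nonpos hq.le (by linarith)
        _ = (n : ℝ) ^ 2 := mul_one _
    have h7 : ‖ps a j‖ ^ (2 * (m : ℝ) / j) * q ^ (-((m : ℝ) * σ)) = y ^ ((m : ℝ) / j) := by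
      rw [hy, Real.mul_rpow (by positivity) (by positivity), ← Real.rpow_natCast, ← Real.rpow_natCast,
        ← Real.rpow_mul (norm_nonneg _), ← Real.rpow_mul hq0.le, ← Real.rpow_mul hq0.le]
      congr 2
      · push_cast; ring
      · field_simp
    have hmj : 1 ≤ (m : ℝ) / j := by
      rw [le_div_iff₀ hj0, one_mul]
      exact_mod_cast hj2
    rw [h7]
    calc y ^ ((m : ℝ) / j) ≤ ((n : ℝ) ^ 2) ^ ((m : ℝ) / j - 1) * y :=
          rpow_le_of_le hy0 hyn hmj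
      _ ≤ (n : ℝ) ^ (2 * m) * y := by
          refine mul_le_mul_of_nonneg_right ?_ hy0
          rw [← Real.rpow_natCast (n : ℝ) 2, ← Real.rpow_mul (by positivity), ← Real.rpow_natCast]
          refine Real.rpow_le_rpow_of_exponent_le hn1 ?_
          push_cast
          have : (m : ℝ) / j ≤ m := div_le_self hm0.le (by exact_mod_cast hj1)
          nlinarith
      _ ≤ (n : ℝ) ^ (2 * m) * ((j : ℝ) * ‖rsFactor a ((q ^ (-σ) : ℝ) : ℂ) - 1‖) :=
          mul_le_mul_of_nonneg_left (ps_le hx0 hxa hj1) (by positivity)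
  rw [h4]
  calc (q ^ theta q a) ^ (2 * m) * q ^ (-((m : ℝ) * σ)) ≤ 4 ^ m * T * q ^ (-((m : ℝ) * σ)) :=
        mul_le_mul_of_nonneg_right h5 (by positivity)
    _ = 4 ^ m * (q ^ (-((m : ℝ) * σ)) + ∑ j ∈ Icc 1 m, ‖ps a j‖ ^ (2 * (m : ℝ) / j) * q ^ (-((m : ℝ) * σ))) := by
        rw [hT, ← sum_mul]; ring
    _ ≤ _ := by
        refine mul_le_mul_of_nonneg_left ?_ (by positivity)
        rw [mul_sum]
        exact add_le_add le_rfl (sum_le_sum fun j hj => h6 j hj)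

/-- Summability over a set of places. -/
theorem summable_theta {V : Type*} {q : V → ℝ} (hq : ∀ v, 1 < q v)
    (hz : ∀ σ : ℝ, 1 < σ → Summable fun v => q v ^ (-σ)) {a : V → Fin n → ℂ}
    (ha : ∀ v i, a v i ≠ 0) (h : ∀ v, Unit' (a v)) (hb : ∀ v i, ‖a v i‖ ^ 2 < q v)
    (hRS : ∀ σ : ℝ, 1 < σ → Summable fun v => ‖rsFactor (a v) (((q v) ^ (-σ) : ℝ) : ℂ) - 1‖)
    (hm : 1 ≤ n / 2) {σ : ℝ} (hσ : 1 < σ) :
    Summable fun v => q v ^ (((n / 2 : ℕ) : ℝ) * (2 * theta (q v) (a v) - σ)) := by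
  have hm1 : (1 : ℝ) ≤ ((n / 2 : ℕ) : ℝ) := by exact_mod_cast hm
  refine Summable.of_nonneg_of_le (fun v => Real.rpow_nonneg (by linarith [hq v]) _)
    (fun v => local_ineq (hq v) hσ (ha v) (h v) (hb v) hm) ?_
  refine Summable.mul_left _ (Summable.add (hz _ (by nlinarith)) (Summable.mul_left _ ?_))
  exact summable_sum fun j _ => (hRS σ hσ).mul_left _

theorem summable_bad {V : Type*} {q : V → ℝ} (hq : ∀ v, 1 < q v) {t : V → ℝ} {m : ℝ} (hm : 0 < m)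
    (hs : ∀ σ : ℝ, 1 < σ → Summable fun v => q v ^ (m * (2 * t v - σ))) {δ s : ℝ}
    (hδ : m * (1 - 2 * δ) < s) : Summable fun v : {v // δ ≤ t v} => q v ^ (-s) := by
  have h1 : 1 < s / m + 2 * δ := by
    have : 1 - 2 * δ < s / m := by rw [lt_div_iff₀ hm]; linarith
    linarith
  refine Summable.of_nonneg_of_le (fun v => Real.rpow_nonneg (by linarith [hq v.1]) _) (fun v => ?_)
    ((hs _ h1).comp_injective (Subtype.val_injective (p := fun v => δ ≤ t v)))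
  refine Real.rpow_le_rpow_of_exponent_le (hq v).le ?_
  have h2 := v.2
  have h3 : m * (2 * t v - (s / m + 2 * δ)) = m * (2 * (t v - δ)) - s := by field_simp; ring
  rw [h3]
  nlinarith

theorem count_bad {V : Type*} {q : V → ℝ} (hq : ∀ v, 1 < q v) {s : ℝ} (hs0 : 0 ≤ s)
    (hs : Summable fun v => q v ^ (-s)) :
    ∃ C : ℝ, ∀ x : ℝ, 1 ≤ x → {v | q v ≤ x}.Finite ∧ (Nat.card {v | q v ≤ x} : ℝ) ≤ C * x ^ s := by
  have hpos : ∀ v, 0 < q v := fun v => by linarith [hq v]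
  have key : ∀ x : ℝ, 1 ≤ x → ∀ F : Finset V, (∀ v ∈ F, q v ≤ x) → (F.card : ℝ) ≤ (∑' v, q v ^ (-s)) * x ^ s := by
    intro x hx F hF
    have hx0 : 0 < x := by linarith
    have h1 : (F.card : ℝ) * x ^ (-s) ≤ ∑' v, q v ^ (-s) := by
      calc (F.card : ℝ) * x ^ (-s) = ∑ _v ∈ F, x ^ (-s) := by rw [sum_const, nsmul_eq_mul]
        _ ≤ ∑ v ∈ F, q v ^ (-s) := by
            refine sum_le_sum fun v hv => ?_
            rw [Real.rpow_neg hx0.le, Real.rpow_neg (hpos v).le]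
            exact inv_anti₀ (Real.rpow_pos_of_pos (hpos v) _)
              (Real.rpow_le_rpow (hpos v).le (hF v hv) hs0)
        _ ≤ ∑' v, q v ^ (-s) := hs.sum_le_tsum F fun v _ => Real.rpow_nonneg (hpos v).le _
    have h2 : (F.card : ℝ) * x ^ (-s) * x ^ s = F.card := by
      rw [mul_assoc, ← Real.rpow_add hx0, neg_add_cancel, Real.rpow_zero, mul_one]
    rw [← h2]
    exact mul_le_mul_of_nonneg_right h1 (by positivity)
  refine ⟨∑' v, q v ^ (-s), fun x hx => ?_⟩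
  have hfin : {v | q v ≤ x}.Finite := by
    by_contra hinf
    obtain ⟨F, hF1, hF2⟩ := Set.Infinite.exists_subset_card_eq hinf (⌈(∑' v, q v ^ (-s)) * x ^ s⌉₊ + 1)
    have h3 := key x hx F fun v hv => hF1 hv
    rw [hF2] at h3
    have h4 := Nat.le_ceil ((∑' v, q v ^ (-s)) * x ^ s)
    push_cast at h3
    linarith
  refine ⟨hfin, ?_⟩
  have h5 := key x hx hfin.toFinset fun v hv => by simpa using hv
  rwa [← Nat.card_eq_card_finite_toFinset hfin] at h5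

end W497.Ram
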