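import Mathlib

/-!
Bounds for a finite family of complex numbers stable under `z ↦ 1 / conj z` from its first power sums.
-/

set_option autoImplicit false

namespace W497.Ram

open Finset
open scoped ComplexConjugate

variable {n : ℕ}

/-- elementary symmetric function of a family -/
noncomputable def es (a : Fin n → ℂ) (k : ℕ) : ℂ := ∑ t ∈ powersetCard k (univ : Finset (Fin n)), ∏ i ∈ t, a i

/-- power sum -/
noncomputable def ps (a : Fin n → ℂ) (k : ℕ) : ℂ := ∑ i, a i ^ k

theorem es_eq (a : Fin n → ℂ) (k : ℕ) :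
    es a k = MvPolynomial.aeval a (MvPolynomial.esymm (Fin n) ℤ k) := by
  simp [es, MvPolynomial.esymm, map_sum, map_prod]

theorem es_multiset (a : Fin n → ℂ) (k : ℕ) : es a k = (Multiset.map a univ.val).esymm k := by
  rw [es_eq, MvPolynomial.aeval_esymm_eq_multiset_esymm]

theorem ps_eq (a : Fin n → ℂ) (k : ℕ) :
    ps a k = MvPolynomial.aeval a (MvPolynomial.psum (Fin n) ℤ k) := by
  simp [ps, MvPolynomial.psum, map_sum, map_pow]

theorem es_zero (a : Fin n → ℂ) : es a 0 = 1 := by simp [es]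

theorem newton (a : Fin n → ℂ) (k : ℕ) :
    (k : ℂ) * es a k = (-1) ^ (k + 1) *
      ∑ x ∈ antidiagonal k with x.1 < k, (-1) ^ x.1 * es a x.1 * ps a x.2 := by
  have h := congrArg (MvPolynomial.aeval (R := ℤ) a) (MvPolynomial.mul_esymm_eq_sum (Fin n) ℤ k)
  simpa [map_mul, map_sum, ← es_eq, ← ps_eq] using h

/-- If the power sums satisfy `|p_j| ≤ R ^ j` for `1 ≤ j ≤ m` then `|e_k| ≤ R ^ k` for `k ≤ m`. -/
theorem es_le_of_ps (a : Fin n → ℂ) {R : ℝ} (hR : 0 ≤ R) (m : ℕ)
    (h : ∀ j, 1 ≤ j → j ≤ m → ‖ps a j‖ ≤ R ^ j) : ∀ k, k ≤ m → ‖es a k‖ ≤ R ^ k := by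
  intro k
  induction k using Nat.strong_induction_on with
  | _ k ih =>
    intro hk
    rcases Nat.eq_zero_or_pos k with rfl | hk0
    · simp [es_zero]
    have h1 : ‖(k : ℂ) * es a k‖ ≤ k * R ^ k := by
      rw [newton a k, norm_mul, norm_pow, norm_neg, norm_one, one_pow, one_mul]
      calc ‖∑ x ∈ antidiagonal k with x.1 < k, (-1) ^ x.1 * es a x.1 * ps a x.2‖
          ≤ ∑ x ∈ antidiagonal k with x.1 < k, R ^ k := by
            refine norm_sum_le_of_le _ fun x hx => ?_
            obtain ⟨hx1, hx2⟩ := mem_filter.1 hx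
            have hx3 := mem_antidiagonal.1 hx1
            rw [norm_mul, norm_mul, norm_pow, norm_neg, norm_one, one_pow, one_mul, ← hx3, pow_add]
            exact mul_le_mul (ih _ hx2 (by omega)) (h _ (by omega) (by omega)) (norm_nonneg _)
              (by positivity)
        _ = k * R ^ k := by
            rw [sum_const, nsmul_eq_mul]
            congr 2
            have : ((antidiagonal k).filter fun x => x.1 < k) = (range k).image fun i => (i, k - i) := by
              ext ⟨i, j⟩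
              simp only [mem_filter, HasAntidiagonal.mem_antidiagonal, mem_image, mem_range, Prod.mk.injEq]
              constructor
              · rintro ⟨h1, h2⟩; exact ⟨i, h2, rfl, by omega⟩
              · rintro ⟨i', h1, h2, h3⟩; omega
            rw [this, card_image_of_injective _ (fun i j hij => by simpa using (Prod.mk.inj hij).1), card_range]
    rw [norm_mul, Complex.norm_natCast] at h1
    have hk' : (0 : ℝ) < k := by exact_mod_cast hk0
    exact le_of_mul_le_mul_left h1 hk'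

theorem es_compl (a : Fin n → ℂ) (ha : ∀ i, a i ≠ 0) {k : ℕ} (hk : k ≤ n) :
    es a (n - k) = (∏ i, a i) * es (fun i => (a i)⁻¹) k := by
  unfold es
  rw [mul_sum]
  refine Finset.sum_nbij' (fun t => tᶜ) (fun t => tᶜ) ?_ ?_ ?_ ?_ ?_
  · intro t ht
    rw [mem_powersetCard] at ht ⊢
    refine ⟨subset_univ _, ?_⟩
    rw [card_compl, Fintype.card_fin, ht.2]; omega
  · intro t ht
    rw [mem_powersetCard] at ht ⊢
    refine ⟨subset_univ _, ?_⟩
    rw [card_compl, Fintype.card_fin, ht.2]
  · intro t _; exact compl_compl t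
  · intro t _; exact compl_compl t
  · intro t _
    rw [prod_inv_distrib, ← prod_mul_prod_compl t a, mul_assoc, mul_inv_cancel₀, mul_one]
    exact prod_ne_zero_iff.2 fun i _ => ha i

/-- stability under `z ↦ 1 / conj z` -/
def Unit' (a : Fin n → ℂ) : Prop :=
  Multiset.map (fun i => (conj (a i))⁻¹) univ.val = Multiset.map a univ.val

theorem es_conj (a : Fin n → ℂ) (k : ℕ) : es (fun i => conj (a i)) k = conj (es a k) := by
  simp [es, map_sum, map_prod]

theorem es_unit {a : Fin n → ℂ} (h : Unit' a) (k : ℕ) : es (fun i => (a i)⁻¹) k = conj (es a k) := by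
  have h1 : es (fun i => (conj (a i))⁻¹) k = es a k := by
    rw [es_multiset, es_multiset, h]
  rw [← h1, ← es_conj]
  congr 1
  ext i
  simp

theorem es_top (a : Fin n → ℂ) : es a n = ∏ i, a i := by
  unfold es
  have : powersetCard n (univ : Finset (Fin n)) = {univ} := by
    ext t
    rw [mem_powersetCard, mem_singleton]
    constructor
    · rintro ⟨_, h⟩
      exact (card_eq_iff_eq_univ t).1 (by rw [h, Fintype.card_fin])
    · rintro rfl
      exact ⟨subset_univ _, by simp⟩
  rw [this, sum_singleton]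

theorem norm_es_compl {a : Fin n → ℂ} (ha : ∀ i, a i ≠ 0) (h : Unit' a) {k : ℕ} (hk : k ≤ n) :
    ‖es a (n - k)‖ = ‖es a k‖ := by
  have h0 : ‖∏ i, a i‖ = 1 := by
    have h1 := es_compl a ha (le_refl n)
    rw [Nat.sub_self, es_zero, es_unit h, es_top] at h1
    have h2 := congrArg norm h1
    rw [norm_one, norm_mul, RCLike.norm_conj] at h2
    have h3 : ‖∏ i, a i‖ * ‖∏ i, a i‖ = 1 := h2.symm
    nlinarith [norm_nonneg (∏ i, a i)]
  rw [es_compl a ha hk, es_unit h, norm_mul, h0, one_mul, RCLike.norm_conj]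

theorem es_le_all {a : Fin n → ℂ} (ha : ∀ i, a i ≠ 0) (h : Unit' a) {R : ℝ} (hR : 1 ≤ R)
    (he : ∀ k, k ≤ n / 2 → ‖es a k‖ ≤ R ^ k) : ∀ k, k ≤ n → ‖es a k‖ ≤ R ^ k := by
  intro k hk
  rcases le_or_gt k (n / 2) with h1 | h1
  · exact he k h1
  · have h2 := norm_es_compl ha h (k := n - k) (by omega)
    rw [Nat.sub_sub_self hk] at h2
    rw [h2]
    refine (he (n - k) (by omega)).trans (pow_le_pow_right₀ hR (by omega))

theorem root_eq (a : Fin n → ℂ) (i : Fin n) :
    ∑ k ∈ range (n + 1), (-1) ^ k * es a k * a i ^ (n - k) = 0 := by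
  have h := Multiset.prod_X_sub_X_eq_sum_esymm (Multiset.map a univ.val)
  have h2 := congrArg (Polynomial.eval (a i)) h
  rw [Polynomial.eval_multiset_prod] at h2
  simp only [Multiset.map_map, Multiset.card_map, Polynomial.eval_finsetSum] at h2
  have h3 : (Multiset.map (Polynomial.eval (a i) ∘ (fun t => Polynomial.X - Polynomial.C t) ∘ a)
      (univ : Finset (Fin n)).val).prod = 0 := by
    rw [Multiset.prod_eq_zero_iff]
    refine Multiset.mem_map.2 ⟨i, mem_univ i, by simp⟩
  have h4 : (Multiset.card (univ : Finset (Fin n)).val) = n := by simp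
  rw [h4] at h2
  simp only [Function.comp_def] at h2 h3
  rw [h3] at h2
  rw [h2]
  refine sum_congr rfl fun k _ => ?_
  simp [es_multiset, Polynomial.eval_mul, mul_assoc]

/-- Cauchy's bound. -/
theorem norm_le_two_mul (a : Fin n → ℂ) {R : ℝ} (hR : 0 < R)
    (he : ∀ k, k ≤ n → ‖es a k‖ ≤ R ^ k) (i : Fin n) : ‖a i‖ ≤ 2 * R := by
  by_contra hlt
  push Not at hlt
  set A := ‖a i‖ with hA
  have hA0 : 0 < A := by linarith
  have h := root_eq a i
  rw [sum_range_succ', es_zero] at h
  simp only [pow_zero, one_mul, Nat.sub_zero] at h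
  have h1 : a i ^ n = -∑ k ∈ range n, (-1) ^ (k + 1) * es a (k + 1) * a i ^ (n - (k + 1)) := by
    linear_combination h
  have h2 : A ^ n ≤ ∑ k ∈ range n, R ^ (k + 1) * A ^ (n - (k + 1)) := by
    rw [hA, ← norm_pow, h1, norm_neg]
    refine norm_sum_le_of_le _ fun k hk => ?_
    rw [norm_mul, norm_mul, norm_pow, norm_neg, norm_one, one_pow, one_mul, norm_pow]
    exact mul_le_mul_of_nonneg_right (he _ (by have := mem_range.1 hk; omega)) (by positivity)
  have h3 : ∑ k ∈ range n, R ^ (k + 1) * A ^ (n - (k + 1)) ≤ ∑ k ∈ range n, A ^ n * (1 / 2) ^ (k + 1) := by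
    refine sum_le_sum fun k hk => ?_
    have hk' : k + 1 ≤ n := by have := mem_range.1 hk; omega
    have : R ^ (k + 1) ≤ (A * (1 / 2)) ^ (k + 1) := by
      refine pow_le_pow_left₀ hR.le (by linarith) _
    calc R ^ (k + 1) * A ^ (n - (k + 1)) ≤ (A * (1 / 2)) ^ (k + 1) * A ^ (n - (k + 1)) :=
          mul_le_mul_of_nonneg_right this (by positivity)
      _ = A ^ n * (1 / 2) ^ (k + 1) := by
          rw [mul_pow, mul_right_comm, ← pow_add, Nat.add_sub_cancel' hk']
  have h4 : ∑ k ∈ range n, A ^ n * (1 / 2 : ℝ) ^ (k + 1) < A ^ n := by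
    rw [← mul_sum]
    have h5 : ∑ k ∈ range n, (1 / 2 : ℝ) ^ (k + 1) = 1 - (1 / 2) ^ n := by
      clear h h1 h2 h3
      induction n with
      | zero => simp
      | succ n _ =>
        have : ∀ m : ℕ, ∑ k ∈ range m, (1 / 2 : ℝ) ^ (k + 1) = 1 - (1 / 2) ^ m := by
          intro m
          induction m with
          | zero => simp
          | succ m ih => rw [sum_range_succ, ih]; ring
        exact this _
    rw [h5]
    have : (0 : ℝ) < (1 / 2) ^ n := by positivity
    have hAn : 0 < A ^ n := by positivity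
    nlinarith
  linarith

/-- The bound for the family from power sums. -/
theorem norm_le_of_ps {a : Fin n → ℂ} (ha : ∀ i, a i ≠ 0) (h : Unit' a) {R : ℝ} (hR : 1 ≤ R)
    (hp : ∀ j, 1 ≤ j → j ≤ n / 2 → ‖ps a j‖ ≤ R ^ j) (i : Fin n) : ‖a i‖ ≤ 2 * R :=
  norm_le_two_mul a (by linarith)
    (es_le_all ha h hR (es_le_of_ps a (by linarith) (n / 2) hp)) i

theorem norm_le_of_es {a : Fin n → ℂ} (ha : ∀ i, a i ≠ 0) (h : Unit' a) {R : ℝ} (hR : 1 ≤ R)
    (hp : ∀ j, 1 ≤ j → j ≤ n / 2 → ‖es a j‖ ≤ R ^ j) (i : Fin n) : ‖a i‖ ≤ 2 * R :=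
  norm_le_two_mul a (by linarith)
    (es_le_all ha h hR (fun k hk => by
      rcases Nat.eq_zero_or_pos k with rfl | h0
      · simp [es_zero]
      · exact hp k h0 hk)) i

/-- the inverse of a member has a norm which is the norm of a member -/
theorem Unit'.inv_mem {a : Fin n → ℂ} (h : Unit' a) (i : Fin n) : ∃ j, ‖a j‖ = ‖a i‖⁻¹ := by
  have h1 : (conj (a i))⁻¹ ∈ Multiset.map (fun i => (conj (a i))⁻¹) (univ : Finset (Fin n)).val :=
    Multiset.mem_map.2 ⟨i, mem_univ i, rfl⟩
  rw [h] at h1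
  obtain ⟨j, _, hj⟩ := Multiset.mem_map.1 h1
  exact ⟨j, by rw [hj, norm_inv, RCLike.norm_conj]⟩

end W497.Ram
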